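import Pool.Agent.Helper46.C2.St

/-!
# Project C2, module GD: centre and commutators after the relation `a² w² = 1`
-/

set_option autoImplicit false

namespace Pool.Agent.Helper6.C2

open Pool.Agent.Helper43.GD Pool.Agent.Helper46.C2

section
variable {G : Type} [Group G]

theorem cj_one_elt (t : G) (j : ℤ) : cj 1 t j = 1 := by
  simp only [cj]
  group

theorem cj_mul' (a b t : G) (j : ℤ) : cj (a * b) t j = cj a t j * cj b t j := by
  simp only [cj]
  group

theorem cj_cj' (a t : G) (i j : ℤ) : cj (cj a t i) t j = cj a t (i + j) := by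
  simp only [cj]
  group

theorem cj_zero' (a t : G) : cj a t 0 = a := by
  simp only [cj]
  group

theorem cj_comm {z t : G} (h : z * t = t * z) (j : ℤ) : cj z t j = z := by
  have h1 : Commute z t := h
  have h2 : Commute z (t ^ j) := h1.zpow_right j
  simp only [cj]
  rw [mul_assoc, h2.eq, ← mul_assoc, zpow_neg, inv_mul_cancel, one_mul]

/-- The elements that commute with `z`, and with `a` up to `z`. -/
def HH (a z : G) (hz : z * z = 1) : Subgroup G where
  carrier := {g | z * g = g * z ∧ (a * g = g * a ∨ a * g = g * a * z)}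
  one_mem' := by
    refine ⟨by rw [mul_one, one_mul], Or.inl (by rw [mul_one, one_mul])⟩
  mul_mem' := by
    rintro g h ⟨hg1, hg2⟩ ⟨hh1, hh2⟩
    refine ⟨by rw [← mul_assoc, hg1, mul_assoc, hh1, mul_assoc], ?_⟩
    rcases hg2 with hg | hg <;> rcases hh2 with hh | hh
    · exact Or.inl (by rw [← mul_assoc, hg, mul_assoc, hh, mul_assoc])
    · exact Or.inr (by rw [← mul_assoc, hg, mul_assoc, hh]; simp only [mul_assoc])
    · refine Or.inr ?_
      rw [← mul_assoc, hg, mul_assoc (g * a), hh1, ← mul_assoc, mul_assoc g, hh]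
      simp only [mul_assoc]
    · refine Or.inl ?_
      rw [← mul_assoc, hg, mul_assoc (g * a), hh1, ← mul_assoc, mul_assoc g, hh]
      rw [← mul_assoc, mul_assoc _ z z, hz, mul_one]
      simp only [mul_assoc]
  inv_mem' := by
    rintro g ⟨hg1, hg2⟩
    have h1 : z * g⁻¹ = g⁻¹ * z := by
      rw [eq_inv_mul_iff_mul_eq, ← mul_assoc, ← hg1, mul_assoc, mul_inv_cancel, mul_one]
    refine ⟨h1, ?_⟩
    rcases hg2 with hg | hg
    · refine Or.inl ?_
      rw [eq_inv_mul_iff_mul_eq, ← mul_assoc, ← hg, mul_assoc, mul_inv_cancel, mul_one]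
    · refine Or.inr ?_
      have h2 : g * a = a * g * z := by rw [hg, mul_assoc (g * a), hz, mul_one]
      rw [mul_assoc, eq_inv_mul_iff_mul_eq, ← mul_assoc, h2, mul_assoc (a * g), h1, ← mul_assoc,
        mul_assoc a, mul_inv_cancel, mul_one]

end

theorem hGD (h1 : StGA) (h2 : StGB) : StGD := by
  intro G _ k a w t hR he
  obtain ⟨-, -, hzt, -, -, -⟩ := h1 G k a w t hR 0
  set z : G := w * w with hz
  have hee : ∀ j : ℤ, ee a w t j = 1 := by
    intro j
    unfold ee
    rw [he]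
    exact cj_one_elt t j
  have hzc : ∀ j : ℤ, z * cj a t j = cj a t j * z := by
    intro j
    obtain ⟨-, -, -, -, h5, -⟩ := h1 G k a w t hR j
    rw [hee, one_pow, one_mul] at h5
    have h6 : (cj a t j)⁻¹ * z * cj a t j = z := h5
    calc z * cj a t j = cj a t j * ((cj a t j)⁻¹ * z * cj a t j) := by group
      _ = cj a t j * z := by rw [h6]
  have haa : a * a = z⁻¹ := by
    obtain ⟨-, -, -, -, -, h6⟩ := h1 G k a w t hR 0
    rwa [hee, one_mul, cj_zero'] at h6
  have hza : z * a = a * z := by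
    have h3 := hzc 0
    rwa [cj_zero'] at h3
  have hB : (cj a t (-1))⁻¹ * a * cj a t (-1) = a⁻¹ := by
    have h3 := h2 G k a w t hR
    rwa [he, inv_one, mul_one] at h3
  have hzz : z * z = 1 := by
    have h3 : (cj a t (-1))⁻¹ * (a * a) * cj a t (-1) = a⁻¹ * a⁻¹ := by
      calc (cj a t (-1))⁻¹ * (a * a) * cj a t (-1)
          = ((cj a t (-1))⁻¹ * a * cj a t (-1)) * ((cj a t (-1))⁻¹ * a * cj a t (-1)) := by group
        _ = a⁻¹ * a⁻¹ := by rw [hB]
    have h4 : (cj a t (-1))⁻¹ * z⁻¹ * cj a t (-1) = z⁻¹ := by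
      have h5 := hzc (-1)
      have h6 : z⁻¹ * cj a t (-1) = cj a t (-1) * z⁻¹ := by
        rw [eq_mul_inv_iff_mul_eq, mul_assoc, ← h5, ← mul_assoc, inv_mul_cancel, one_mul]
      rw [mul_assoc, h6, ← mul_assoc, inv_mul_cancel, one_mul]
    have h7 : a⁻¹ * a⁻¹ = z := by rw [← mul_inv_rev, haa, inv_inv]
    rw [haa, h4, h7] at h3
    calc z * z = z * z⁻¹ := congrArg (fun g => z * g) h3.symm
      _ = 1 := mul_inv_cancel z
  have hzi : z⁻¹ = z := inv_eq_of_mul_eq_one_left hzz
  have haz : a * a = z := by rw [haa, hzi]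
  have hai : a⁻¹ = a * z := by
    rw [inv_eq_iff_mul_eq_one, ← mul_assoc, haz, hzz]
  refine ⟨hzz, haz, hza, hzt, ?_⟩
  -- the set `D`
  let H := HH a z hzz
  have hH : ∀ m : ℤ, cj a t m ∈ H ↔
      (a * cj a t m = cj a t m * a ∨ a * cj a t m = cj a t m * a * z) := fun m =>
    ⟨fun h => h.2, fun h => ⟨hzc m, h⟩⟩
  have hshift : ∀ i m n : ℤ, (cj a t i * cj a t m = cj a t m * cj a t i ∨
      cj a t i * cj a t m = cj a t m * cj a t i * z) →
      (cj a t (i + n) * cj a t (m + n) = cj a t (m + n) * cj a t (i + n) ∨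
      cj a t (i + n) * cj a t (m + n) = cj a t (m + n) * cj a t (i + n) * z) := by
    intro i m n h
    rcases h with h | h
    · left
      rw [← cj_cj' a t i n, ← cj_cj' a t m n, ← cj_mul', ← cj_mul', h]
    · right
      rw [← cj_cj' a t i n, ← cj_cj' a t m n, ← cj_mul', ← cj_mul', h, cj_mul', cj_comm hzt n]
  have hneg : ∀ m : ℤ, cj a t m ∈ H → cj a t (-m) ∈ H := by
    intro m hm
    rw [hH] at hm ⊢
    have h3 := hshift 0 m (-m) (by rw [cj_zero']; exact hm)
    rw [zero_add, add_neg_cancel, cj_zero'] at h3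
    rcases h3 with h3 | h3
    · exact Or.inl h3.symm
    · right
      have h4 : cj a t (-m) * a * z = a * cj a t (-m) := by
        rw [h3, mul_assoc, hzz, mul_one]
      exact h4.symm
  have hrel : ∀ j : ℤ, cj a t (j + 1) = cj a t j * cj a t (j + k) := by
    intro j
    have h3 := congrArg (fun g => cj g t j) hR.2.2
    simp only [cj_mul', cj_cj'] at h3
    rwa [add_comm (1 : ℤ), add_comm (k : ℤ)] at h3
  have p3 : ∀ j : ℤ, cj a t j ∈ H → cj a t (j + 1) ∈ H → cj a t (j + k) ∈ H := by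
    intro j h3 h4
    rw [hrel] at h4
    exact (H.mul_mem_cancel_left h3).1 h4
  have p1 : ∀ j : ℤ, cj a t (j + 1) ∈ H → cj a t (j + k) ∈ H → cj a t j ∈ H := by
    intro j h3 h4
    rw [hrel] at h3
    exact (H.mul_mem_cancel_right h4).1 h3
  have p2 : ∀ j : ℤ, cj a t j ∈ H → cj a t (j + k) ∈ H → cj a t (j + 1) ∈ H := by
    intro j h3 h4
    rw [hrel]
    exact H.mul_mem h3 h4
  have d0 : cj a t 0 ∈ H := by
    rw [hH, cj_zero']
    exact Or.inl rfl
  have dm1 : cj a t (-1) ∈ H := by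
    rw [hH]
    right
    have h3 : a * cj a t (-1) = cj a t (-1) * a⁻¹ := by
      rw [← hB]
      group
    rw [h3, hai, mul_assoc]
  have d1 : cj a t 1 ∈ H := by
    have h3 := hneg (-1) dm1
    rwa [neg_neg] at h3
  have dk : cj a t (k : ℤ) ∈ H := by
    have h3 := p3 0 d0 (by rwa [zero_add])
    rwa [zero_add] at h3
  have dk1 : cj a t ((k : ℤ) + 1) ∈ H := by
    have h3 : cj a t (-(k : ℤ) - 1) ∈ H := by
      refine p1 _ ?_ ?_
      · have h4 := hneg _ dk
        rwa [show -(k : ℤ) - 1 + 1 = -(k : ℤ) by ring]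
      · rwa [show -(k : ℤ) - 1 + (k : ℤ) = -1 by ring]
    have h4 := hneg _ h3
    rwa [show -(-(k : ℤ) - 1) = (k : ℤ) + 1 by ring] at h4
  have hind : ∀ n : ℕ, cj a t (n : ℤ) ∈ H ∧ cj a t ((n : ℤ) + 1) ∈ H ∧
      cj a t ((k : ℤ) + n) ∈ H ∧ cj a t ((k : ℤ) + n + 1) ∈ H := by
    intro n
    induction n with
    | zero =>
      refine ⟨by simpa using d0, by simpa using d1, by simpa using dk, by simpa using dk1⟩
    | succ n ih =>
      obtain ⟨-, i2, -, i4⟩ := ih
      have e1 : cj a t ((n : ℤ) + 1 + 1) ∈ H := by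
        refine p2 _ i2 ?_
        rwa [show (n : ℤ) + 1 + k = (k : ℤ) + n + 1 by ring]
      have e2 : cj a t (-((k : ℤ) + n + 1 + 1)) ∈ H := by
        refine p1 _ ?_ ?_
        · have h4 := hneg _ i4
          rwa [show -((k : ℤ) + n + 1 + 1) + 1 = -((k : ℤ) + n + 1) by ring]
        · have h4 := hneg _ e1
          rwa [show -((k : ℤ) + n + 1 + 1) + (k : ℤ) = -((n : ℤ) + 1 + 1) by ring]
      have e3 := hneg _ e2
      rw [neg_neg] at e3
      refine ⟨?_, ?_, ?_, ?_⟩
      · push_cast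
        exact i2
      · push_cast
        exact e1
      · push_cast
        rwa [← add_assoc]
      · push_cast
        rwa [← add_assoc]
  have hall : ∀ m : ℤ, cj a t m ∈ H := by
    intro m
    rcases Int.eq_nat_or_neg m with ⟨n, rfl | rfl⟩
    · exact (hind n).1
    · exact hneg _ (hind n).1
  intro i j
  have h3 := (hH (j - i)).1 (hall (j - i))
  have h4 := hshift 0 (j - i) i (by rw [cj_zero']; exact h3)
  rwa [zero_add, sub_add_cancel] at h4

end Pool.Agent.Helper6.C2
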